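import Mathlib

namespace Pool.Agent.Results.MP_50aa38_lc.NotFO

open FirstOrder FirstOrder.Language

/-- function symbols: join, meet, complement, 0, 1 -/
inductive Fn : ℕ → Type
  | sup : Fn 2
  | inf : Fn 2
  | compl : Fn 1
  | bot : Fn 0
  | top : Fn 0

/-- relation symbols: the contact relation -/
inductive Rl : ℕ → Type
  | con : Rl 2

/-- the first-order language of contact algebras -/
def L : Language := ⟨Fn, Rl⟩

/-- a Boolean algebra with a binary relation as an `L`-structure -/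
@[reducible] def str (B : Type) [BooleanAlgebra B] (C : B → B → Prop) : L.Structure B where
  funMap {n} f x := match n, f, x with
    | _, Fn.sup, x => x 0 ⊔ x 1
    | _, Fn.inf, x => x 0 ⊓ x 1
    | _, Fn.compl, x => (x 0)ᶜ
    | _, Fn.bot, _ => ⊥
    | _, Fn.top, _ => ⊤
  RelMap {n} r x := match n, r, x with
    | _, Rl.con, x => C (x 0) (x 1)

section defs
variable {B : Type} [BooleanAlgebra B] (C : B → B → Prop)

/-- axioms (C1)-(C4) -/
structure IsContact : Prop where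
  c1 : ∀ a b, C a b → a ≠ ⊥ ∧ b ≠ ⊥
  c2 : ∀ a b c, C a (b ⊔ c) ↔ C a b ∨ C a c
  c3 : ∀ a b, C a b → C b a
  c4 : ∀ a b, a ⊓ b ≠ ⊥ → C a b

structure IsClan (G : Set B) : Prop where
  ne : G.Nonempty
  bot : ⊥ ∉ G
  up : ∀ a b, a ∈ G → a ≤ b → b ∈ G
  sup : ∀ a b, a ⊔ b ∈ G → a ∈ G ∨ b ∈ G
  con : ∀ a ∈ G, ∀ b ∈ G, C a b

def IsCluster (G : Set B) : Prop := IsClan C G ∧ ∀ a, (∀ b ∈ G, C a b) → a ∈ G

/-- `a ≪ b` is `¬ C a bᶜ` -/
def IsCoEnd (G : Set B) : Prop := IsCluster C G ∧ ∀ a, a ∉ G → ∃ b, b ∉ G ∧ ¬ C a bᶜ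

/-- the regularity axiom -/
def Reg : Prop := ∀ a b, C a b → ∃ G, IsCoEnd C G ∧ a ∈ G ∧ b ∈ G

end defs

/-! ### the example -/

abbrev V := ℝ × Bool

structure P where
  y : ℕ → V
  o : Option V
  h : ∀ v, o = some v → ∀ n, y n ≠ v

def R (p q : P) : Prop := p.y = q.y ∧ ∀ j s, p.o = some (j, s) → q.o ≠ some (j, !s)

def av (σ : Equiv.Perm ℝ) (v : V) : V := (σ v.1, v.2)

theorem av_inj (σ : Equiv.Perm ℝ) : Function.Injective (av σ) := by
  rintro ⟨a, b⟩ ⟨c, d⟩ h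
  simp only [av, Prod.mk.injEq] at h
  rw [σ.injective h.1, h.2]

@[simp] theorem av_one (v : V) : av 1 v = v := rfl
theorem av_mul (σ τ : Equiv.Perm ℝ) (v : V) : av (σ * τ) v = av σ (av τ v) := rfl

def act (σ : Equiv.Perm ℝ) (p : P) : P where
  y n := av σ (p.y n)
  o := p.o.map (av σ)
  h v hv n e := by
    obtain ⟨w, hw, rfl⟩ := Option.map_eq_some_iff.1 hv
    exact p.h w hw n (av_inj σ e)

theorem act_inv (σ : Equiv.Perm ℝ) (p : P) : act σ (act σ⁻¹ p) = p := by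
  obtain ⟨y, o, h⟩ := p
  simp only [act, P.mk.injEq]
  refine ⟨funext fun n => by simp [av], ?_⟩
  cases o <;> simp [av]

theorem R_act (σ : Equiv.Perm ℝ) {p q : P} (h : R p q) : R (act σ p) (act σ q) := by
  refine ⟨by simp only [act, h.1], fun j s h1 h2 => ?_⟩
  obtain ⟨⟨a, b⟩, hw, e⟩ := Option.map_eq_some_iff.1 h1
  obtain ⟨⟨c, d⟩, hw', e'⟩ := Option.map_eq_some_iff.1 h2
  simp only [av, Prod.mk.injEq] at e e'
  obtain rfl : a = c := σ.injective (e.1.trans e'.1.symm)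
  exact h.2 a b hw (by rw [hw', e.2, e'.2])

def Det (N : ℕ) (S : Finset ℝ) (a : Set P) : Prop :=
  ∀ (σ : Equiv.Perm ℝ) (p q : P), (∀ j ∈ S, σ j = j) → (∀ n < N, q.y n = av σ (p.y n)) →
    q.o = p.o.map (av σ) → (p ∈ a ↔ q ∈ a)

theorem Det.mono {N N' : ℕ} {S S' : Finset ℝ} {a : Set P} (h : Det N S a) (h1 : N ≤ N')
    (h2 : S ⊆ S') : Det N' S' a :=
  fun σ p q e1 e2 e3 => h σ p q (fun j hj => e1 j (h2 hj)) (fun n hn => e2 n (by omega)) e3

theorem Det.one {N : ℕ} {S : Finset ℝ} {a : Set P} (h : Det N S a) {p q : P}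
    (e2 : ∀ n < N, q.y n = p.y n) (e3 : q.o = p.o) : p ∈ a ↔ q ∈ a :=
  h 1 p q (fun _ _ => rfl) e2 (by rw [e3]; cases p.o <;> rfl)

open Classical in
def Alg (A : Set ℝ) : BooleanSubalgebra (Set P) where
  carrier := {a | ∃ (N : ℕ) (S : Finset ℝ), (S : Set ℝ) ⊆ A ∧ Det N S a}
  supClosed' := by
    rintro a ⟨N, S, h, d⟩ b ⟨N', S', h', d'⟩
    refine ⟨max N N', S ∪ S', by simp [h, h'], fun σ p q e1 e2 e3 => ?_⟩
    exact or_congr (d.mono (le_max_left _ _) Finset.subset_union_left σ p q e1 e2 e3)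
      (d'.mono (le_max_right _ _) Finset.subset_union_right σ p q e1 e2 e3)
  infClosed' := by
    rintro a ⟨N, S, h, d⟩ b ⟨N', S', h', d'⟩
    refine ⟨max N N', S ∪ S', by simp [h, h'], fun σ p q e1 e2 e3 => ?_⟩
    exact and_congr (d.mono (le_max_left _ _) Finset.subset_union_left σ p q e1 e2 e3)
      (d'.mono (le_max_right _ _) Finset.subset_union_right σ p q e1 e2 e3)
  compl_mem' := by
    rintro a ⟨N, S, h, d⟩
    exact ⟨N, S, h, fun σ p q e1 e2 e3 => not_congr (d σ p q e1 e2 e3)⟩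
  bot_mem' := ⟨0, ∅, by simp, fun _ _ _ _ _ _ => Iff.rfl⟩

def Con (A : Set ℝ) (a b : Alg A) : Prop := ∃ p ∈ a.1, ∃ q ∈ b.1, R p q

theorem R_refl (p : P) : R p p := ⟨rfl, fun j s h1 h2 => by
  rw [h1] at h2; cases s <;> simp at h2⟩

theorem R_symm {p q : P} (h : R p q) : R q p := ⟨h.1.symm, fun j s h1 h2 =>
  h.2 j (!s) h2 (by simpa using h1)⟩

theorem contact (A : Set ℝ) : IsContact (Con A) where
  c1 := by
    rintro a b ⟨p, hp, q, hq, -⟩
    constructor <;> rintro rfl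
    · exact hp
    · exact hq
  c2 a b c := by
    constructor
    · rintro ⟨p, hp, q, hq | hq, h⟩
      · exact .inl ⟨p, hp, q, hq, h⟩
      · exact .inr ⟨p, hp, q, hq, h⟩
    · rintro (⟨p, hp, q, hq, h⟩ | ⟨p, hp, q, hq, h⟩)
      · exact ⟨p, hp, q, .inl hq, h⟩
      · exact ⟨p, hp, q, .inr hq, h⟩
  c3 := by
    rintro a b ⟨p, hp, q, hq, h⟩
    exact ⟨q, hq, p, hp, R_symm h⟩
  c4 a b h := by
    by_contra hn
    refine h (Subtype.ext (Set.eq_empty_of_forall_notMem fun p hp => ?_))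
    exact hn ⟨p, hp.1, p, hp.2, R_refl p⟩

def Mn : Alg Set.univ := ⟨{p | p.o = none}, 0, ∅, by simp, fun σ p q _ _ e => by
  simp only [Set.mem_setOf_eq, e, Option.map_eq_none_iff]⟩

theorem av_fix {σ : Equiv.Perm ℝ} {v w : V} (h : σ v.1 = v.1) : av σ w = v ↔ w = v := by
  have : av σ v = v := by simp [av, h]
  exact ⟨fun e => av_inj σ (e.trans this.symm), fun e => e ▸ this⟩

def Cell (n : ℕ) (v : V) : Alg Set.univ := ⟨{p | p.o = none ∧ p.y n = v}, n + 1, {v.1}, by simp,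
  fun σ p q e1 e2 e => by
    simp only [Set.mem_setOf_eq, e, Option.map_eq_none_iff, e2 n (by omega),
      av_fix (e1 v.1 (by simp))]⟩

def Lay (v : V) : Alg Set.univ := ⟨{p | p.o = some v}, 0, {v.1}, by simp,
  fun σ p q e1 _ e => by
    simp only [Set.mem_setOf_eq, e]
    cases p.o with
    | none => simp
    | some w => simp [av_fix (e1 v.1 (by simp))]⟩

theorem not_reg : ¬ Reg (Con Set.univ) := by
  intro h
  let p0 : P := ⟨fun _ => (0, true), none, by simp⟩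
  obtain ⟨G, ⟨⟨hG, -⟩, hE⟩, hM, -⟩ := h Mn Mn ⟨p0, rfl, p0, rfl, R_refl _⟩
  have hc : (⋃ n : ℕ, Prod.fst '' {v | Cell n v ∈ G}).Countable := by
    refine Set.countable_iUnion fun n => (Set.Subsingleton.finite ?_).countable.image _
    intro v hv w hw
    obtain ⟨p, hp, q, hq, hr⟩ := hG.con _ hv _ hw
    rw [← hp.2, ← hq.2, hr.1]
  obtain ⟨i, hi⟩ : ∃ i, i ∉ ⋃ n : ℕ, Prod.fst '' {v | Cell n v ∈ G} := by
    by_contra hh
    push Not at hh
    exact Set.not_countable_univ (hc.mono fun x _ => hh x)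
  have key : ∀ s, Lay (i, s) ∈ G := by
    intro s
    by_contra hn
    obtain ⟨b, hb, hcb⟩ := hE _ hn
    obtain ⟨N, S, -, d⟩ := b.2
    have fin : ∀ (m : ℕ) (c : Alg Set.univ), c ∈ G →
        ¬ ∀ p ∈ c.1, p ∈ b.1 ∨ (p.o = none ∧ ∃ n < m, p.y n = (i, s)) := by
      intro m
      induction m with
      | zero => exact fun c hc h => hb (hG.up c b hc fun p hp => by simpa using h p hp)
      | succ m ih =>
        intro c hc h
        have : c ≤ (c ⊓ (Cell m (i, s))ᶜ) ⊔ Cell m (i, s) := by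
          rw [sup_comm, sup_inf_left]; simp
        rcases hG.sup _ _ (hG.up _ _ hc this) with h1 | h1
        · refine ih _ h1 fun p hp => (h p hp.1).imp_right fun ⟨e, n, hn, e'⟩ => ⟨e, n, ?_, e'⟩
          by_contra hlt
          obtain rfl : n = m := by omega
          exact hp.2 ⟨e, e'⟩
        · exact hi (Set.mem_iUnion.2 ⟨m, (i, s), h1, rfl⟩)
    refine fin N Mn hM fun p hp => ?_
    by_contra hh
    push Not at hh
    let y : ℕ → V := fun n => if n < N then p.y n else (i, !s)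
    have hy : ∀ n, y n ≠ (i, s) := fun n => by
      by_cases hn : n < N
      · simpa [y, hn] using hh.2 hp n hn
      · simp only [y, if_neg hn]; cases s <;> simp
    refine hcb ⟨⟨y, some (i, s), fun v hv n => by cases hv; exact hy n⟩, rfl,
      ⟨y, none, by simp⟩, fun hq => hh.1 ?_, rfl, by simp⟩
    exact (d.one (fun n hn => by simp [y, hn]) (by exact hp.symm)).2 hq
  obtain ⟨p, hp, q, hq, hr⟩ := hG.con _ (key true) _ (key false)
  exact hr.2 i true hp hq

def K0 : Set ℝ := Set.range (Nat.cast : ℕ → ℝ)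

theorem move (S : Finset ℝ) (hS : (S : Set ℝ) ⊆ K0) (T : Finset ℝ) :
    ∃ τ : Equiv.Perm ℝ, (∀ j ∈ S, τ j = j) ∧ ∀ j ∈ T, τ j ∈ K0 := by
  classical
  induction T using Finset.induction_on with
  | empty => exact ⟨1, fun _ _ => rfl, by simp⟩
  | insert t T _ ih =>
    obtain ⟨τ, h1, h2⟩ := ih
    by_cases ht : τ t ∈ K0
    · exact ⟨τ, h1, by simpa [ht] using h2⟩
    obtain ⟨k, hk, hk'⟩ := (Set.infinite_range_of_injective
      (Nat.cast_injective (R := ℝ))).exists_notMem_finset (S ∪ T.image τ)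
    simp only [Finset.mem_union, Finset.mem_image, not_or, not_exists, not_and] at hk'
    refine ⟨Equiv.swap (τ t) k * τ, fun j hj => ?_, fun j hj => ?_⟩
    · rw [Equiv.Perm.mul_apply, h1 j hj, Equiv.swap_apply_of_ne_of_ne]
      · rintro rfl; exact ht (hS hj)
      · rintro rfl; exact hk'.1 hj
    · rcases Finset.mem_insert.1 hj with rfl | hj
      · simp only [Equiv.Perm.mul_apply, Equiv.swap_apply_left]; exact hk
      · rw [Equiv.Perm.mul_apply, Equiv.swap_apply_of_ne_of_ne _ (hk'.2 j hj)]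
        · exact h2 j hj
        · intro e; exact ht (e ▸ h2 j hj)

theorem neg_notMem {x : ℝ} (hx : x < 0) : x ∉ K0 := by
  rintro ⟨n, rfl⟩
  exact absurd hx (by simp)

theorem coend (y : ℕ → V) (g1 : ∀ n, (y n).1 ∈ K0) (g2 : ∀ j ∈ K0, ∃ n s, y n = (j, s)) :
    IsCoEnd (Con K0) {c | ∃ p ∈ c.1, p.y = y} := by
  classical
  have np : ∀ j s, j ∉ K0 → ∀ v, some (j, s) = some v → ∀ n, y n ≠ v := by
    rintro j s hj v ⟨⟩ n e
    exact hj (by have := g1 n; rwa [e] at this)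
  have hE : ∀ a : Alg K0, a ∉ {c : Alg K0 | ∃ p ∈ c.1, p.y = y} →
      ∃ b, b ∉ {c : Alg K0 | ∃ p ∈ c.1, p.y = y} ∧ ¬ Con K0 a bᶜ := by
    intro c hc
    obtain ⟨N, S, hS, d⟩ := c.2
    let S' := S ∪ (Finset.range N).image fun n => (y n).1
    obtain ⟨N', hN, hN'⟩ : ∃ N', N ≤ N' ∧ ∀ v : V, v.1 ∈ S' → (∃ n, y n = v) →
        ∃ n < N', y n = v := by
      let f : V → ℕ := fun v => if h : ∃ n, y n = v then h.choose + 1 else 0
      refine ⟨max N ((S' ×ˢ (Finset.univ : Finset Bool)).sup f), le_max_left _ _,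
        fun v hv h => ⟨h.choose, ?_, h.choose_spec⟩⟩
      have := Finset.le_sup (f := f) (show v ∈ S' ×ˢ (Finset.univ : Finset Bool) by simp [hv])
      simp only [f, dif_pos h] at this
      exact lt_max_of_lt_right this
    let D : Alg K0 := ⟨{p | ∀ n < N', p.y n = y n}, N', (Finset.range N').image fun n => (y n).1,
      by intro j hj; simp only [Finset.coe_image] at hj; obtain ⟨n, -, rfl⟩ := hj; exact g1 n,
      fun σ p q e1 e2 _ => forall_congr' fun n => forall_congr' fun hn => by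
        rw [e2 n hn, av_fix (e1 _ (Finset.mem_image.2 ⟨n, by simpa using hn, rfl⟩))]⟩
    refine ⟨Dᶜ, fun ⟨p, hp, e⟩ => hp fun n _ => by rw [e], ?_⟩
    rw [compl_compl]
    rintro ⟨p, hp, q, hq, hr⟩
    have hz : ∀ n < N', p.y n = y n := fun n hn => by rw [hr.1]; exact hq n hn
    apply hc
    cases ho : p.o with
    | none =>
      exact ⟨⟨y, none, by simp⟩, (d.one (fun n hn => (hz n (by omega)).symm) ho.symm).1 hp, rfl⟩
    | some v =>
      by_cases hv : v.1 ∈ S'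
      · refine ⟨⟨y, some v, ?_⟩, (d.one (fun n hn => (hz n (by omega)).symm) ho.symm).1 hp, rfl⟩
        rintro _ ⟨⟩ n e
        obtain ⟨m, hm, e'⟩ := hN' v hv ⟨n, e⟩
        exact p.h v ho m ((hz m hm).trans e')
      · have h1 : (-1 : ℝ) ∉ K0 := neg_notMem (by norm_num)
        simp only [S', Finset.mem_union, Finset.mem_image, Finset.mem_range, not_or, not_exists,
          not_and] at hv
        refine ⟨⟨y, some (-1, v.2), np _ _ h1⟩,
          (d (Equiv.swap v.1 (-1)) p _ (fun j hj => ?_) (fun n hn => ?_) ?_).1 hp, rfl⟩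
        · exact Equiv.swap_apply_of_ne_of_ne (fun e => hv.1 (e ▸ hj)) (fun e => h1 (e ▸ hS hj))
        · rw [hz n (by omega), av, Equiv.swap_apply_of_ne_of_ne (hv.2 n hn)
            (fun e : (y n).1 = -1 => h1 (e ▸ g1 n))]
        · simp [ho, av]
  refine ⟨⟨⟨⟨⊤, ⟨y, none, by simp⟩, trivial, rfl⟩, fun ⟨_, h, _⟩ => h,
    fun a b ⟨p, hp, e⟩ h => ⟨p, h hp, e⟩,
    fun a b ⟨p, hp, e⟩ => hp.imp (fun h => ⟨p, h, e⟩) (fun h => ⟨p, h, e⟩), ?_⟩, ?_⟩, hE⟩
  · rintro c ⟨p, hp, e⟩ c' ⟨q, hq, e'⟩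
    by_cases hr : R p q
    · exact ⟨p, hp, q, hq, hr⟩
    obtain ⟨j, s, h1, h2⟩ : ∃ j s, p.o = some (j, s) ∧ q.o = some (j, !s) := by
      by_contra hh
      exact hr ⟨e.trans e'.symm, fun j s h1 h2 => hh ⟨j, s, h1, h2⟩⟩
    have hj : j ∉ K0 := fun hj => by
      obtain ⟨n, t, ht⟩ := g2 j hj
      by_cases hs : t = s
      · exact p.h _ h1 n (by rw [e, ht, hs])
      · exact q.h _ h2 n (by rw [e', ht]; cases s <;> cases t <;> simp_all)
    obtain ⟨N, S, hS, d⟩ := c.2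
    have h3 : -|j| - 1 ∉ K0 := neg_notMem (by linarith [abs_nonneg j])
    refine ⟨⟨y, some (-|j| - 1, s), np _ _ h3⟩,
      (d (Equiv.swap j (-|j| - 1)) p _ (fun k hk => ?_) (fun n hn => ?_) ?_).1 hp, q, hq,
      e'.symm, ?_⟩
    · exact Equiv.swap_apply_of_ne_of_ne (fun e => hj (e ▸ hS hk)) (fun e => h3 (e ▸ hS hk))
    · rw [e, av, Equiv.swap_apply_of_ne_of_ne (fun e : (y n).1 = j => hj (e ▸ g1 n))
        (fun e : (y n).1 = -|j| - 1 => h3 (e ▸ g1 n))]
    · simp [h1, av]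
    · rintro k t ⟨⟩ h4
      rw [h2] at h4
      simp only [Option.some.injEq, Prod.mk.injEq] at h4
      linarith [neg_abs_le j, h4.1]
  · intro a ha
    by_contra hn
    obtain ⟨b, hb, hab⟩ := hE a hn
    refine hab (ha _ ⟨⟨y, none, by simp⟩, fun h => hb ⟨_, h, rfl⟩, rfl⟩)

theorem reg : Reg (Con K0) := by
  classical
  rintro a b ⟨p, hp, q, hq, hr⟩
  obtain ⟨N1, S1, h1, d1⟩ := a.2
  obtain ⟨N2, S2, h2, d2⟩ := b.2
  have da := d1.mono (le_max_left N1 N2) (Finset.subset_union_left (s₂ := S2))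
  have db := d2.mono (le_max_right N1 N2) (Finset.subset_union_right (s₁ := S1))
  generalize max N1 N2 = N at da db
  obtain ⟨τ, t1, t2⟩ := move (S1 ∪ S2) (by simp [h1, h2])
    ((Finset.range N).image fun n => (p.y n).1)
  have hp' : act τ p ∈ a.1 := (da τ p _ t1 (fun _ _ => rfl) rfl).1 hp
  have hq' : act τ q ∈ b.1 := (db τ q _ t1 (fun _ _ => rfl) rfl).1 hq
  have hr' := R_act τ hr
  have hy : ∀ n < N, ((act τ p).y n).1 ∈ K0 := fun n hn =>
    t2 _ (Finset.mem_image.2 ⟨n, by simpa using hn, rfl⟩)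
  generalize act τ p = p' at hp' hr' hy
  generalize act τ q = q' at hq' hr'
  have : ∀ j : ℝ, ∃ s, p'.o ≠ some (j, s) ∧ q'.o ≠ some (j, s) := by
    intro j
    by_contra hh
    push Not at hh
    by_cases e : p'.o = some (j, true)
    · exact hr'.2 j true e (hh false (by simp [e]))
    · have e2 := hh true e
      by_cases e3 : p'.o = some (j, false)
      · exact hr'.2 j false e3 e2
      · have := hh false e3
        simp [e2] at this
  choose sg hs using this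
  let y : ℕ → V := fun n => if n < N then p'.y n else (((n - N : ℕ) : ℝ), sg ((n - N : ℕ) : ℝ))
  refine ⟨_, coend y (fun n => ?_) ?_, ⟨⟨y, p'.o, fun v hv n => ?_⟩,
    (da.one (p := p') (fun n hn => by simp [y, hn]) (by rfl)).1 hp', rfl⟩, ⟨⟨y, q'.o, fun v hv n => ?_⟩,
    (db.one (p := q') (fun n hn => by simp [y, hn, hr'.1]) (by rfl)).1 hq', rfl⟩⟩
  · by_cases hn : n < N
    · simpa [y, hn] using hy n hn
    · simp only [y, if_neg hn]; exact ⟨_, rfl⟩
  · rintro _ ⟨k, rfl⟩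
    exact ⟨N + k, sg k, by simp [y]⟩
  · by_cases hn : n < N
    · simpa [y, hn] using p'.h v hv n
    · simp only [y, if_neg hn]; rintro rfl; exact (hs _).1 hv
  · by_cases hn : n < N
    · simpa [y, hn, hr'.1] using q'.h v hv n
    · simp only [y, if_neg hn]; rintro rfl; exact (hs _).2 hv

open Classical in
theorem det_pre {N : ℕ} {S : Finset ℝ} {a : Set P} (d : Det N S a) (τ : Equiv.Perm ℝ) :
    Det N (S.image τ) (act τ⁻¹ ⁻¹' a) := by
  intro σ p q e1 e2 e3
  refine d (τ⁻¹ * σ * τ) _ _ (fun j hj => ?_) (fun n hn => ?_) ?_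
  · simp [e1 (τ j) (Finset.mem_image_of_mem _ hj)]
  · simp [act, e2 n hn, av]
  · simp only [act, e3]
    cases p.o <;> simp [av]

def pre (τ : Equiv.Perm ℝ) (a : Alg Set.univ) : Alg Set.univ :=
  ⟨act τ⁻¹ ⁻¹' a.1, by obtain ⟨N, S, -, d⟩ := a.2; exact ⟨N, _, by simp, det_pre d τ⟩⟩

instance (A : Set ℝ) : L.Structure (Alg A) := str (Alg A) (Con A)

def aut (τ : Equiv.Perm ℝ) : Alg Set.univ ≃[L] Alg Set.univ where
  toFun := pre τ
  invFun := pre τ⁻¹
  left_inv a := Subtype.ext (Set.ext fun p => by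
    show act τ⁻¹ (act τ⁻¹⁻¹ p) ∈ a.1 ↔ _
    rw [act_inv])
  right_inv a := Subtype.ext (Set.ext fun p => by
    show act τ⁻¹⁻¹ (act τ⁻¹ p) ∈ a.1 ↔ _
    rw [inv_inv, act_inv])
  map_fun' := by intro n f x; cases f <;> rfl
  map_rel' := by
    intro n r x
    cases r
    constructor
    · rintro ⟨p, hp, q, hq, h⟩
      exact ⟨_, hp, _, hq, R_act _ h⟩
    · rintro ⟨p, hp, q, hq, h⟩
      refine ⟨act τ⁻¹⁻¹ p, ?_, act τ⁻¹⁻¹ q, ?_, R_act _ h⟩
      · show act τ⁻¹ (act τ⁻¹⁻¹ p) ∈ (x 0).1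
        rwa [act_inv]
      · show act τ⁻¹ (act τ⁻¹⁻¹ q) ∈ (x 1).1
        rwa [act_inv]

def emb : Alg K0 ↪[L] Alg Set.univ where
  toFun a := ⟨a.1, by obtain ⟨N, S, -, d⟩ := a.2; exact ⟨N, S, by simp, d⟩⟩
  inj' a b h := Subtype.ext (congrArg (fun c : Alg Set.univ => c.1) h)
  map_fun' := by intro n f x; cases f <;> rfl
  map_rel' := by intro n r x; cases r; rfl

theorem elem (φ : L.Sentence) : Alg K0 ⊨ φ ↔ Alg Set.univ ⊨ φ := by
  classical
  refine (emb.toElementaryEmbedding fun n ψ x c h => ?_).map_sentence φ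
  choose N S hS d using fun i => (x i).2
  obtain ⟨M, T, -, dc⟩ := c.2
  obtain ⟨τ, t1, t2⟩ := move (Finset.univ.biUnion S) (by simpa using hS) T
  refine ⟨⟨(pre τ c).1, M, _, ?_, det_pre dc τ⟩, ?_⟩
  · intro j hj
    simp only [Finset.coe_image] at hj
    obtain ⟨k, hk, rfl⟩ := hj
    exact t2 k hk
  have := (StrongHomClass.realize_boundedFormula (aut τ) ψ).2 h
  rw [Subsingleton.elim ((aut τ) ∘ default) default] at this
  convert this using 1
  funext i
  refine Fin.lastCases ?_ (fun i => ?_) i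
  · simp only [Fin.snoc_last, Function.comp]; rfl
  · simp only [Fin.snoc_castSucc, Function.comp]
    refine Subtype.ext (Set.ext fun p => ?_)
    refine d i τ⁻¹ p (act τ⁻¹ p) (fun j hj => ?_) (fun _ _ => rfl) rfl
    rw [Equiv.Perm.inv_eq_iff_eq, t1 j (Finset.mem_biUnion.2 ⟨i, by simp, hj⟩)]

/-- No first-order sentence, and no set of first-order sentences, axiomatises (Reg) over the
class of contact algebras. -/
theorem result :
    (¬ ∃ φ : L.Sentence, ∀ (B : Type) [BooleanAlgebra B] (C : B → B → Prop), IsContact C →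
      (@Sentence.Realize L B (str B C) φ ↔ Reg C)) ∧
    (¬ ∃ T : L.Theory, ∀ (B : Type) [BooleanAlgebra B] (C : B → B → Prop), IsContact C →
      ((∀ φ ∈ T, @Sentence.Realize L B (str B C) φ) ↔ Reg C)) := by
  constructor
  · rintro ⟨φ, h⟩
    exact not_reg ((h _ _ (contact _)).1 ((elem φ).1 ((h _ _ (contact _)).2 reg)))
  · rintro ⟨T, h⟩
    exact not_reg ((h _ _ (contact _)).1 fun φ hφ =>
      (elem φ).1 ((h _ _ (contact _)).2 reg φ hφ))

end Pool.Agent.Results.MP_50aa38_lc.NotFO
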